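import Pool.Agent.Lib.DN.Pub.Pub
import Pool.Agent.Lib.DR.Defs
import Pool.Agent.Lib.DS.IfaceD

/-!
# MP_d0239a_nt: from `ThmDK`, `ThmDN`, `ThmDR` and `ThmDT` to the joint public form

`d` is squarefree, `K = ℚ(√-d)`, `ℤ + ℤ ω₂` is the ring of integers of `K`; `p = 2` and all `d`, or `p = 3` splits
in `K` (`d` is `2` modulo `3`).
-/

set_option autoImplicit false

noncomputable section

namespace Pool.Agent.MuP

open Pool.Agent.DN (SqN Ine OO Dk toC Lam LP wC wpC XC crC xO Tor fr)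
open Pool.Agent.DR (Rmf)

/-- The field `WeberFd ι Λ`, up to the choice of the embedding, is a subfield of `DN.Wf n t`. -/
theorem weberFd_leS (l1 : DN.S_L1) (l2 : DN.S_L2) (b1 : DN.S_B1) (r1 : DS.S_R1) (n t : ℕ) [SqN n t]
    (Λ : PeriodPair) (h1 : Λ.ω₁ = 1) (hw : Λ.ω₂ = wC n t) (ι : Omega →+* ℂ)
    (σ : Gal(AlgebraicClosure ℚ/ℚ)) (hσ : ∀ x, DI.io (σ x) = ι x) (x : AlgebraicClosure ℚ)
    (hx : x ∈ (show IntermediateField ℚ (AlgebraicClosure ℚ) from WeberFd ι Λ)) :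
    σ x ∈ DN.Wf n t := by
  have htop : (⊤ : Ideal (OO n t)) ≠ ⊥ := top_ne_bot
  have h15 : DN.G15 (⊤ : Ideal (OO n t)) := ⟨htop, by
    unfold DN.PrI
    exact top_sup_eq _⟩
  have hlat : Λ.lattice = (LP (⊤ : Ideal (OO n t))).lattice := by
    ext z
    have e1 : z ∈ (LP (⊤ : Ideal (OO n t))).lattice ↔ z ∈ Lam (⊤ : Ideal (OO n t)) := by
      rw [← l1 n t ⊤ htop]
      rfl
    rw [e1, ((l2 n t).2.2.2.2.1 z), PeriodPair.mem_lattice, h1, hw]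
    constructor
    · rintro ⟨m, k, rfl⟩
      refine ⟨⟨m, k⟩, ?_⟩
      rw [DN.toC_apply]
      simp
    · rintro ⟨v, rfl⟩
      refine ⟨v.re, v.im, ?_⟩
      rw [DN.toC_apply]
      simp
  obtain ⟨g2, g3, hp⟩ := DK.pair_congr _ _ hlat
  have hmem : ∀ z : ℂ, z ∈ Λ.lattice ↔ z ∈ Lam (⊤ : Ideal (OO n t)) := by
    intro z
    rw [hlat, ← l1 n t ⊤ htop]
    rfl
  have htor : ∀ z : ℂ, IsTorPt Λ z → Tor n t z ∧ z ∉ Lam (⊤ : Ideal (OO n t)) := by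
    rintro z ⟨hz, N, hN, hNz⟩
    exact ⟨((l2 n t).2.2.2.2.2.2.2 ⊤ z htop).2 ⟨N, hN, (hmem _).1 hNz⟩, fun h => hz ((hmem z).2 h)⟩
  have hfr : fr (⊤ : Ideal (OO n t)) ≠ 0 := ((b1 n t ⊤ htop).2.2.2.2.2 h15.2).1
  have hX : ∀ z : ℂ, Tor n t z → DI.io (xO (⊤ : Ideal (OO n t)) z) = XC (⊤ : Ideal (OO n t)) z :=
    fun z hz => (((r1.1 n t).1 ⊤ h15).2.2.1 z hz).1
  obtain ⟨hj, hW⟩ := web_mem Λ (DN.Wf n t) (by
    intro z₁ z₂ z₃ t₁ t₂ t₃
    obtain ⟨s₁, u₁⟩ := htor z₁ t₁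
    obtain ⟨s₂, u₂⟩ := htor z₂ t₂
    obtain ⟨s₃, u₃⟩ := htor z₃ t₃
    have hcr : crC n t z₁ z₂ z₃ = DI.io
        ((xO (⊤ : Ideal (OO n t)) z₁ - xO (⊤ : Ideal (OO n t)) z₂) /
          (xO (⊤ : Ideal (OO n t)) z₃ - xO (⊤ : Ideal (OO n t)) z₂)) := by
      rw [map_div₀, map_sub, map_sub, hX z₁ s₁, hX z₂ s₂, hX z₃ s₃]
      unfold crC XC
      have e : ∀ a b c : ℂ, (a - c) / fr (⊤ : Ideal (OO n t)) ^ 2 - (b - c) / fr (⊤ : Ideal (OO n t)) ^ 2 =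
          (a - b) / fr (⊤ : Ideal (OO n t)) ^ 2 := by
        intro a b c
        ring
      rw [e, e, div_div_div_cancel_right₀ (pow_ne_zero 2 hfr)]
    refine ⟨DI.ofC (crC n t z₁ z₂ z₃), IntermediateField.subset_adjoin _ _
      (Or.inr ⟨z₁, z₂, z₃, s₁, s₂, s₃, u₁, u₂, u₃, rfl⟩), ?_⟩
    rw [hcr, DI.ofC_io, ← hcr]
    unfold crC crL
    rw [hp, hp, hp]
    rfl)
  have hle : (show IntermediateField ℚ (AlgebraicClosure ℚ) from WeberFd ι Λ) ≤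
      (DN.Wf n t).comap (σ : AlgebraicClosure ℚ →ₐ[ℚ] AlgebraicClosure ℚ) := by
    refine (IntermediateField.adjoin_le_iff (F := ℚ) (E := AlgebraicClosure ℚ)).2 ?_
    rintro a ha
    change σ a ∈ DN.Wf n t
    rw [Set.mem_ofPred_eq, ← hσ a] at ha
    rcases ha with ha | ha | ⟨z, hz, ha⟩
    · rw [h1, div_one, hw] at ha
      have e : DN.wO n t = σ a := by
        rw [← DI.ofC_io (σ a), ha]
        rfl
      rw [← e]
      exact IntermediateField.subset_adjoin _ _ (Or.inl rfl)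
    · obtain ⟨y, hy, hy'⟩ := hj
      rw [DI.io_inj (ha.trans hy'.symm)]
      exact hy
    · obtain ⟨y, hy, hy'⟩ := hW z hz
      rw [DI.io_inj (ha.trans hy'.symm)]
      exact hy
  exact hle hx

/-- The form for a prime number `p` and a field `K = ℚ(w)`, from the theorem for the subfields of `Wf n t`. -/
theorem weber_ofS (p : ℕ) [Fact p.Prime] (l1 : DN.S_L1) (l2 : DN.S_L2) (b1 : DN.S_B1) (r1 : DS.S_R1)
    (n t : ℕ) [SqN n t]
    (h : ∀ F : IntermediateField ℚ (AlgebraicClosure ℚ), FiniteDimensional ℚ F → F ≤ DN.Wf n t →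
      MuZ.XFinGen p (MuZ.cyc p F))
    (Λ : PeriodPair) (h1 : Λ.ω₁ = 1) (hw : Λ.ω₂ = wC n t) (ι : Omega →+* ℂ)
    (F F₀ L : Fd) (hL : IsNF L) (h0 : F₀ ≤ WeberFd ι Λ) (h0L : F₀ ≤ L) (hFL : F ≤ L)
    (hGal : GalOver F₀ L) (a : ℕ) (hdeg : deg L = p ^ a * deg F₀) : XFinGen p (cyc p F) := by
  obtain ⟨σ, hσ⟩ := DK.exists_gal ι
  exact (XFinGen_cyc_iff p F).2 (DT.extW p (DN.Wf n t) h F F₀ L σ hL
    (fun x hx => weberFd_leS l1 l2 b1 r1 n t Λ h1 hw ι σ hσ x (h0 x hx)) h0L hFL hGal a hdeg)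

/-- The number `ω₂`, `d` not `3` modulo `4`. -/
theorem wC_zero (d : ℕ) (z : ℂ) (hz : z = √(d : ℝ) * Complex.I) : z = wC d 0 := by
  have e : √((Dk d 0 : ℕ) : ℝ) = 2 * √(d : ℝ) := by
    have e1 : Dk d 0 = 4 * d := by
      unfold Dk
      omega
    rw [e1]
    push_cast
    rw [Real.sqrt_mul (by norm_num), show (4 : ℝ) = 2 ^ 2 by norm_num, Real.sqrt_sq (by norm_num)]
  rw [hz]
  unfold wC
  rw [e]
  apply Complex.ext
  · simp
  · simp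

/-- **The joint theorem, from `ThmDK`, `ThmDT`, `ThmDN` and `ThmDR`.** Let `d` be squarefree, `K = ℚ(√-d)`, and let
`p = 2`, or `p = 3` and `3` splits in `K`. Let `Λ = ℤ + ℤ ω₂` be the ring of integers of `K`, `F₀` a number
field which is contained in the field generated by `ω₂`, `j(Λ)` and the values of Weber's function at the
nonzero torsion points of `ℂ/Λ`, and `L / F₀` a finite Galois extension whose degree is a power of `p`. Then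
`X(F^cyc)` is finitely generated over `ℤ_p` for all subfields `F` of `L`. -/
theorem weberFd_all2 (hK : DK.ThmDK) (hT : DT.ThmDT) (hN : DN.ThmDN) (hR : DR.ThmDR) (l1 : DN.S_L1)
    (l2 : DN.S_L2) (b1 : DN.S_B1) (r1 : DS.S_R1) (p d : ℕ) (hd : Squarefree d)
    (hp : p = 2 ∨ p = 3 ∧ d % 3 = 2) (Λ : PeriodPair) (h1 : Λ.ω₁ = 1)
    (h2 : Λ.ω₂ = if d % 4 = 3 then (1 + √(d : ℝ) * Complex.I) / 2 else √(d : ℝ) * Complex.I)
    (ι : Omega →+* ℂ) (F F₀ L : Fd) (hL : IsNF L) (h0 : F₀ ≤ WeberFd ι Λ) (h0L : F₀ ≤ L)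
    (hFL : F ≤ L) (hGal : GalOver F₀ L) (a : ℕ) (hdeg : deg L = p ^ a * deg F₀) :
    XFinGen p (cyc p F) := by
  by_cases h4 : p = 2 ∧ d % 4 ≠ 3
  · obtain ⟨rfl, h4⟩ := h4
    rw [if_neg h4] at h2
    have : Fact (Nat.Prime 2) := ⟨Nat.prime_two⟩
    have : Rmf d 0 :=
      { out := Or.inr ⟨rfl, Nat.pos_of_ne_zero hd.ne_zero, hd, h4⟩
        zero := rfl }
    exact weber_ofS 2 l1 l2 b1 r1 d 0 (hR d 0) Λ h1 (wC_zero d _ h2) ι F F₀ L hL h0 h0L hFL hGal a hdeg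
  · refine weberFd_all hK hT hN l1 l2 b1 ?_ p d hd ?_ Λ h1 h2 ι F F₀ L hL h0 h0L hFL hGal a hdeg
    · obtain ⟨r2, c, hc, r3⟩ := r1
      exact ⟨fun n t _ => r2 n t, c, hc, fun n t _ => r3 n t⟩
    · omega

end Pool.Agent.MuP
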